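import Pool.Agent.Helper50_PN.Stmts

/-! PN, module DGR: derivations and weights (copy of the PRS module of helper90 over the integers). -/

set_option autoImplicit false

namespace Pool.Agent.PN.H39

open MvPolynomial

section
variable {V : Type*} {R : Type*} [CommSemiring R]

/-- the weight of a monomial -/
def wt (w : V → ℕ) (s : V →₀ ℕ) : ℕ := s.sum (fun v e => e * w v)

theorem wt_add (w : V → ℕ) (s t : V →₀ ℕ) : wt w (s + t) = wt w s + wt w t := by
  classical
  unfold wt
  exact Finsupp.sum_add_index' (by simp) (by intro a b c; ring)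

theorem wt_single (w : V → ℕ) (v : V) (k : ℕ) : wt w (Finsupp.single v k) = k * w v := by
  unfold wt
  rw [Finsupp.sum_single_index]
  simp

theorem deg_iff (w : V → ℕ) (n : ℕ) (P : MvPolynomial V R) :
    Deg w n P ↔ ∀ s ∈ P.support, wt w s ≤ n := Iff.rfl

theorem deg_zero (w : V → ℕ) (n : ℕ) : Deg w n (0 : MvPolynomial V R) := by
  intro s hs
  simp at hs

theorem deg_mono {w : V → ℕ} {n m : ℕ} (h : n ≤ m) {P : MvPolynomial V R} (hP : Deg w n P) :
    Deg w m P := fun s hs => (hP s hs).trans h

theorem deg_add {w : V → ℕ} {n : ℕ} {P Q : MvPolynomial V R} (hP : Deg w n P) (hQ : Deg w n Q) :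
    Deg w n (P + Q) := by
  classical
  intro s hs
  rcases Finset.mem_union.1 (support_add hs) with h | h
  · exact hP s h
  · exact hQ s h

theorem deg_sum {w : V → ℕ} {n : ℕ} {ι : Type*} (t : Finset ι) (f : ι → MvPolynomial V R)
    (h : ∀ i ∈ t, Deg w n (f i)) : Deg w n (∑ i ∈ t, f i) := by
  classical
  induction t using Finset.induction_on with
  | empty => simpa using deg_zero w n
  | insert a t ha ih =>
    rw [Finset.sum_insert ha]
    exact deg_add (h a (Finset.mem_insert_self a t))
      (ih fun i hi => h i (Finset.mem_insert_of_mem hi))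

theorem deg_mul {w : V → ℕ} {n m : ℕ} {P Q : MvPolynomial V R} (hP : Deg w n P)
    (hQ : Deg w m Q) : Deg w (n + m) (P * Q) := by
  classical
  intro s hs
  obtain ⟨a, ha, b, hb, rfl⟩ := Finset.mem_add.1 (support_mul P Q hs)
  have := wt_add w a b
  have h1 := hP a ha
  have h2 := hQ b hb
  change wt w (a + b) ≤ n + m
  rw [this]
  exact Nat.add_le_add h1 h2

theorem deg_monomial (w : V → ℕ) (s : V →₀ ℕ) (c : R) : Deg w (wt w s) (monomial s c) := by
  classical
  intro t ht
  have := support_monomial_subset ht
  rw [Finset.mem_singleton] at this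
  subst this
  exact le_rfl

theorem deg_C (w : V → ℕ) (n : ℕ) (c : R) : Deg w n (C c : MvPolynomial V R) := by
  refine deg_mono (Nat.zero_le n) ?_
  have := deg_monomial w (0 : V →₀ ℕ) c
  simpa [wt] using this

theorem deg_X (w : V → ℕ) (v : V) : Deg w (w v) (X v : MvPolynomial V R) := by
  have := deg_monomial w (Finsupp.single v 1) (1 : R)
  rw [wt_single, one_mul] at this
  exact this

theorem deg_pow {w : V → ℕ} {n : ℕ} {P : MvPolynomial V R} (hP : Deg w n P) (k : ℕ) :
    Deg w (k * n) (P ^ k) := by
  induction k with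
  | zero => simpa using deg_C w 0 (1 : R)
  | succ k ih =>
    rw [pow_succ, Nat.succ_mul]
    exact deg_mul ih hP

end

theorem dgr : DgrStmt := by
  intro V _ w δ e hX n P hP
  have hC : ∀ c : ℤ, δ (C c) = 0 := fun c => by
    have := δ.map_algebraMap c
    simpa using this
  -- powers of a variable
  have h1 : ∀ (v : V) (k : ℕ), Deg w (k * w v + e) (δ (X v ^ k)) := by
    intro v k
    induction k with
    | zero => simpa using deg_zero w _
    | succ k ih =>
      rw [pow_succ, Derivation.leibniz, smul_eq_mul, smul_eq_mul]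
      refine deg_add ?_ ?_
      · have := deg_mul (deg_pow (deg_X (R := ℤ) w v) k) (hX v)
        exact deg_mono (by ring_nf; omega) this
      · have := deg_mul (deg_X (R := ℤ) w v) ih
        exact deg_mono (by ring_nf; omega) this
  -- monomials
  have h2 : ∀ s : V →₀ ℕ, Deg w (wt w s + e) (δ (monomial s 1)) := by
    intro s
    induction s using Finsupp.induction_linear with
    | zero =>
      have : (monomial (0 : V →₀ ℕ) (1 : ℤ)) = C 1 := rfl
      rw [this, hC]
      exact deg_zero _ _
    | add f g hf hg =>
      have : (monomial (f + g) (1 : ℤ)) = monomial f 1 * monomial g 1 := by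
        rw [monomial_mul, one_mul]
      rw [this, Derivation.leibniz, smul_eq_mul, smul_eq_mul, wt_add]
      refine deg_add ?_ ?_
      · exact deg_mono (by omega) (deg_mul (deg_monomial w f (1 : ℤ)) hg)
      · exact deg_mono (by omega) (deg_mul (deg_monomial w g (1 : ℤ)) hf)
    | single a b =>
      have : (monomial (Finsupp.single a b) (1 : ℤ)) = X a ^ b := by
        rw [X_pow_eq_monomial]
      rw [this, wt_single]
      exact h1 a b
  rw [← support_sum_monomial_coeff P, map_sum]
  refine deg_sum _ _ fun s hs => ?_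
  have h3 : (monomial s (coeff s P)) = C (coeff s P) * monomial s (1 : ℤ) := by
    rw [C_mul_monomial, mul_one]
  rw [h3, Derivation.leibniz, hC, smul_zero, add_zero, smul_eq_mul]
  have h4 := deg_mul (deg_C w 0 (coeff s P)) (h2 s)
  have h5 : wt w s ≤ n := hP s hs
  exact deg_mono (by omega) h4

end Pool.Agent.PN.H39
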